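import Pool.Agent.H.MP_3ce60b_pr.D

namespace Pool.Agent.H.MP_3ce60b_pr
open Finset

variable {w : ℤ → ℕ → ℝ}

theorem ex_mono (hw : ∀ z i, 1 / 2 ≤ w z i ∧ w z i ≤ 1) (n : ℕ) : ∀ f g : List Bool → ℝ,
    (∀ l, l.length = n → f l ≤ g l) → ex w n f ≤ ex w n g := by
  induction n with
  | zero => exact fun f g h => h [] rfl
  | succ n ih =>
    intro f g h
    refine ih _ _ (fun l hl => ?_)
    have := hw (pos l) (cnt l (pos l))
    exact add_le_add (mul_le_mul_of_nonneg_left (h _ (by simp [hl])) (by linarith))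
      (mul_le_mul_of_nonneg_left (h _ (by simp [hl])) (by linarith))

theorem ex_lin (n : ℕ) : ∀ (f : List Bool → ℝ) (a c : ℝ),
    ex w n (fun l => a * f l + c) = a * ex w n f + c := by
  induction n with
  | zero => exact fun f a c => rfl
  | succ n ih =>
    intro f a c
    simp only [ex]
    rw [← ih]
    congr 1
    ext l
    ring

theorem ex_super (hw : ∀ z i, 1 / 2 ≤ w z i ∧ w z i ≤ 1) (F : List Bool → ℝ)
    (h : ∀ l, w (pos l) (cnt l (pos l)) * F (true :: l) +
      (1 - w (pos l) (cnt l (pos l))) * F (false :: l) ≤ F l) (n : ℕ) : ex w n F ≤ F [] := by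
  induction n with
  | zero => exact le_rfl
  | succ n ih => exact (ex_mono hw n _ _ (fun l _ => h l)).trans ih

def DD (w : ℤ → ℕ → ℝ) : List Bool → ℝ
  | [] => 0
  | _ :: l => DD w l + (2 * w (pos l) (cnt l (pos l)) - 1)

def MG (w : ℤ → ℕ → ℝ) (l : List Bool) : ℝ := pos l - DD w l

def yy (w : ℤ → ℕ → ℝ) (σ : ℝ) : List Bool → ℝ
  | [] => 0
  | b :: l => max (yy w σ l) (σ * MG w (b :: l))

def hi (σ : ℤ) : List Bool → ℤ
  | [] => 0
  | b :: l => max (hi σ l) (σ * pos (b :: l))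

theorem phi_step (x y e : ℝ) : (max y (x + e)) ^ 2 - 2 * (x + e) * max y (x + e) ≤
    y ^ 2 - 2 * x * y - 2 * y * e := by
  rcases le_total y (x + e) with h | h
  · rw [max_eq_right h]; nlinarith [sq_nonneg (x + e - y)]
  · rw [max_eq_left h]; nlinarith

theorem doob (hw : ∀ z i, 1 / 2 ≤ w z i ∧ w z i ≤ 1) (n : ℕ) :
    ex w n (fun l => yy w 1 l ^ 2 + yy w (-1) l ^ 2) ≤ 8 * n := by
  have h := ex_super hw (fun l => 2 * (yy w 1 l ^ 2 - 2 * MG w l * yy w 1 l) +
    2 * (yy w (-1) l ^ 2 - 2 * (-MG w l) * yy w (-1) l) + 8 * (MG w l ^ 2 - l.length)) (fun l => by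
      have hp := hw (pos l) (cnt l (pos l))
      have e1 : MG w (true :: l) = MG w l + (2 - 2 * w (pos l) (cnt l (pos l))) := by
        simp [MG, pos, DD]; ring
      have e2 : MG w (false :: l) = MG w l + (-2 * w (pos l) (cnt l (pos l))) := by
        simp [MG, pos, DD]; ring
      simp only [yy, e1, e2, one_mul, neg_one_mul, neg_add, List.length_cons]
      generalize w (pos l) (cnt l (pos l)) = p at *
      have a1 := mul_le_mul_of_nonneg_left (phi_step (MG w l) (yy w 1 l) (2 - 2 * p))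
        (by linarith : 0 ≤ p)
      have a2 := mul_le_mul_of_nonneg_left (phi_step (MG w l) (yy w 1 l) (-2 * p))
        (by linarith : 0 ≤ 1 - p)
      have a3 := mul_le_mul_of_nonneg_left (phi_step (-MG w l) (yy w (-1) l) (-(2 - 2 * p)))
        (by linarith : 0 ≤ p)
      have a4 := mul_le_mul_of_nonneg_left (phi_step (-MG w l) (yy w (-1) l) (-(-2 * p)))
        (by linarith : 0 ≤ 1 - p)
      push_cast
      nlinarith [sq_nonneg (2 * p - 1)]) n
  have h2 := ex_lin (w := w) n (fun l => 2 * (yy w 1 l ^ 2 - 2 * MG w l * yy w 1 l) +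
    2 * (yy w (-1) l ^ 2 - 2 * (-MG w l) * yy w (-1) l) + 8 * (MG w l ^ 2 - l.length)) 1 (8 * n)
  refine (ex_mono hw n _ _ (fun l hl => ?_)).trans (h2.le.trans ?_)
  · rw [hl]
    nlinarith [sq_nonneg (yy w 1 l - 2 * MG w l), sq_nonneg (yy w (-1) l + 2 * MG w l)]
  · simp only [yy, MG, pos, DD, List.length_nil] at h ⊢
    simp only [Int.cast_zero, Nat.cast_zero] at h
    linarith

theorem hi_bd (σ : ℤ) (hσ : σ = 1 ∨ σ = -1) (l : List Bool) :
    0 ≤ hi σ l ∧ hi σ l ≤ l.length ∧ σ * pos l ≤ hi σ l := by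
  induction l with
  | nil => simp [hi, pos]
  | cons b l ih =>
    simp only [hi, pos, List.length_cons]
    rcases hσ with rfl | rfl <;> cases b <;> simp <;> omega

theorem DD_eq (Z : Finset ℤ) (l : List Bool) (h : ∀ z, -hi (-1) l ≤ z → z ≤ hi 1 l → z ∈ Z) :
    DD w l = ∑ z ∈ Z, ∑ i ∈ range (cnt l z), (2 * w z i - 1) := by
  induction l with
  | nil => simp [DD, cnt]
  | cons b l ih =>
    have a1 := hi_bd 1 (Or.inl rfl) l
    have a2 := hi_bd (-1) (Or.inr rfl) l
    have a3 : ∀ z, -hi (-1) l ≤ z → z ≤ hi 1 l → z ∈ Z := fun z p q => h z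
      (by simp only [hi]; omega) (by simp only [hi]; omega)
    rw [DD, ih a3, ← sum_ite_eq_of_mem Z (pos l) (fun z => 2 * w z (cnt l z) - 1)
      (a3 _ (by omega) (by omega)), ← sum_add_distrib]
    refine sum_congr rfl (fun z _ => ?_)
    simp only [cnt]
    split_ifs
    · rw [sum_range_succ]
    · rw [add_zero, add_zero]

theorem path (hw : ∀ z i, 1 / 2 ≤ w z i ∧ w z i ≤ 1) (l : List Bool) :
    0 ≤ DD w l ∧ (hi 1 l : ℝ) ≤ yy w 1 l + DD w l ∧ (hi (-1) l : ℝ) ≤ yy w (-1) l := by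
  induction l with
  | nil => simp [DD, hi, yy]
  | cons b l ih =>
    have hp := hw (pos l) (cnt l (pos l))
    have d : DD w l ≤ DD w (b :: l) := by simp only [DD]; linarith
    have m1 := le_max_left (yy w 1 l) (1 * MG w (b :: l))
    have m2 := le_max_right (yy w 1 l) (1 * MG w (b :: l))
    have m3 := le_max_left (yy w (-1) l) (-1 * MG w (b :: l))
    have m4 := le_max_right (yy w (-1) l) (-1 * MG w (b :: l))
    simp only [hi, yy]
    push_cast
    unfold MG at *
    exact ⟨by linarith, max_le (by linarith) (by linarith), max_le (by linarith) (by linarith)⟩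

theorem tail (hw : ∀ z i, 1 / 2 ≤ w z i ∧ w z i ≤ 1) (n : ℕ) {η C T : ℝ} (h0 : 0 < η)
    (hT : 0 < T) (hn : C ^ 2 ≤ n)
    (h : ∀ (a s : ℤ) (m : ℤ → ℕ), 0 ≤ a → a ≤ n → 0 ≤ s → s ≤ n →
      ∑ z ∈ Icc (-a) s, ∑ i ∈ range (m z), (2 * w z i - 1) ≤ (1 - η) * s + a + C) :
    ex w n (fun l => if T < pos l then 1 else 0) ≤ 27 * n / (η * T) ^ 2 := by
  have p : 0 < (η * T) ^ 2 := by positivity
  have h2 := ex_lin (w := w) n (fun l => yy w 1 l ^ 2 + yy w (-1) l ^ 2) (3 / (η * T) ^ 2)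
    (3 / (η * T) ^ 2 * C ^ 2)
  refine (ex_mono hw n _ _ (fun l hl => ?_)).trans (h2.le.trans ?_)
  · rw [← mul_add]
    split_ifs with e
    · have a1 := hi_bd 1 (Or.inl rfl) l
      have a2 := hi_bd (-1) (Or.inr rfl) l
      have a3 := h (hi (-1) l) (hi 1 l) (cnt l) a2.1 (hl ▸ a2.2.1) a1.1 (hl ▸ a1.2.1)
      rw [← DD_eq _ l (fun z p q => mem_Icc.2 ⟨p, q⟩)] at a3
      have a4 := path hw l
      have a5 : (pos l : ℝ) ≤ hi 1 l := by exact_mod_cast (one_mul (pos l) ▸ a1.2.2)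
      have a6 : η * T ≤ yy w 1 l + yy w (-1) l + C := by nlinarith
      rw [div_mul_eq_mul_div, le_div_iff₀ p, one_mul]
      have := pow_le_pow_left₀ (by positivity) a6 2
      nlinarith [sq_nonneg (yy w 1 l - yy w (-1) l), sq_nonneg (yy w 1 l - C),
        sq_nonneg (yy w (-1) l - C)]
    · positivity
  · rw [← mul_add, div_mul_eq_mul_div]
    have := doob hw n
    exact div_le_div_of_nonneg_right (by linarith) p.le

end Pool.Agent.H.MP_3ce60b_pr
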