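import Pool.Agent.H.MP_3ce60b_pr.A
import Pool.Agent.H.MP_f59e5e_pr.A

namespace Pool.Agent.H.MP_3ce60b_pr
open Finset MeasureTheory Filter Pool.Agent.H.MP_f59e5e_pr

noncomputable def tm (ω : Om) (z : ℤ) (i j : ℕ) : ℝ :=
  if ω (2 * j) + z = 0 ∧ i < 2 * MM (2 * j) then 1 / 4 * (1 / 2) ^ j else 0

noncomputable def env (ω : Om) (z : ℤ) (i : ℕ) : ℝ := 1 / 2 + (∑' j, tm ω z i j) / 2

theorem tm_bd (ω : Om) (z : ℤ) (i j : ℕ) : 0 ≤ tm ω z i j ∧ tm ω z i j ≤ 1 / 4 * (1 / 2) ^ j := by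
  unfold tm; split_ifs <;> constructor <;> first | positivity | exact le_rfl

theorem geo : HasSum (fun j : ℕ => (1 / 4 * (1 / 2) ^ j : ℝ)) (1 / 2) := by
  have := hasSum_geometric_two.mul_left (1 / 4)
  rwa [show (1 / 4 * 2 : ℝ) = 1 / 2 by norm_num] at this

theorem tm_sum (ω : Om) (z : ℤ) (i : ℕ) : Summable (tm ω z i) :=
  geo.summable.of_nonneg_of_le (fun j => (tm_bd ω z i j).1) (fun j => (tm_bd ω z i j).2)

theorem env_bd (ω : Om) (z : ℤ) (i : ℕ) : 1 / 2 ≤ env ω z i ∧ env ω z i ≤ 3 / 4 := by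
  have h1 : 0 ≤ ∑' j, tm ω z i j := tsum_nonneg (fun j => (tm_bd ω z i j).1)
  have h2 := (tm_sum ω z i).tsum_le_tsum (fun j => (tm_bd ω z i j).2) geo.summable
  rw [geo.tsum_eq] at h2
  unfold env
  constructor <;> linarith

theorem env_stat (ω : Om) (z : ℤ) (i : ℕ) : env (1 + ω) z i = env ω (z + 1) i := by
  unfold env tm
  congr 3
  ext j
  congr 2
  simp only [Pi.add_apply, Pi.one_apply]
  push_cast
  rw [show (1 : ZMod (MM (2 * j))) + ω (2 * j) + z = ω (2 * j) + (z + 1) by ring]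

theorem tm_meas (z : ℤ) (i j : ℕ) : Measurable fun ω => tm ω z i j :=
  Measurable.ite (meas_cyl (2 * j) {a | a + z = 0 ∧ i < 2 * MM (2 * j)}) measurable_const
    measurable_const

theorem env_meas (z : ℤ) (i : ℕ) : Measurable fun ω => env ω z i := by
  have : Measurable fun ω => ∑' j, tm ω z i j :=
    measurable_of_tendsto_metrizable (f := fun n ω => ∑ j ∈ range n, tm ω z i j)
      (fun n => Finset.measurable_sum _ (fun j _ => tm_meas z i j))
      (tendsto_pi_nhds.2 fun ω => (tm_sum ω z i).hasSum.tendsto_sum_nat)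
  unfold env
  fun_prop

theorem MM_mono {j k : ℕ} (h : j ≤ k) : MM j ≤ MM k := by
  rw [MM_eq, MM_eq]; exact Nat.succ_le_succ (Nat.pow_le_pow_left (rr_mono h) 8)

theorem env_mom (ε : ℝ) (hε : 0 < ε) : ∃ N, ∀ ω z i, N ≤ i → |env ω z i - 1 / 2| < ε := by
  obtain ⟨J, hJ⟩ := exists_pow_lt_of_lt_one hε (by norm_num : (1 / 2 : ℝ) < 1)
  refine ⟨2 * MM (2 * J), fun ω z i hi => ?_⟩
  have h1 := (env_bd ω z i).1
  have h2 := (tm_sum ω z i).sum_add_tsum_nat_add J
  rw [sum_eq_zero (fun j hj => by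
    have := MM_mono (by have := mem_range.1 hj; omega : 2 * j ≤ 2 * J)
    exact if_neg (by omega)), zero_add] at h2
  have h3 := ((summable_nat_add_iff J).2 (tm_sum ω z i)).tsum_le_tsum
    (fun j => (tm_bd ω z i (j + J)).2.trans (le_of_eq (by ring)))
    (geo.mul_right ((1 / 2) ^ J)).summable
  rw [h2, (geo.mul_right _).tsum_eq] at h3
  have : (0 : ℝ) < (1 / 2) ^ J := by positivity
  rw [abs_of_nonneg (by linarith)]
  unfold env
  linarith

theorem env_delta : ∫⁻ ω, ∑' i, ENNReal.ofReal (2 * env ω 0 i - 1) ∂PP = 1 := by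
  have h1 : ∀ ω, ∑' i, ENNReal.ofReal (2 * env ω 0 i - 1) = ∑' j, {ω : Om | ω (2 * j) = 0}.indicator
      (fun _ => (2 * MM (2 * j) : ℕ) * ENNReal.ofReal (1 / 4 * (1 / 2) ^ j)) ω := fun ω => by
    have : ∀ i, ENNReal.ofReal (2 * env ω 0 i - 1) = ∑' j, ENNReal.ofReal (tm ω 0 i j) := fun i => by
      rw [← ENNReal.ofReal_tsum_of_nonneg (fun j => (tm_bd _ _ _ j).1) (tm_sum _ _ _)]
      congr 1; unfold env; ring
    simp only [this]
    rw [ENNReal.tsum_comm]
    congr 1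
    ext j
    by_cases e : ω (2 * j) = 0
    · rw [Set.indicator_of_mem (by exact e), tsum_eq_sum (s := range (2 * MM (2 * j)))
        (fun i hi => by simp [tm, mem_range.not.1 hi]),
        sum_congr rfl (fun i hi => by rw [tm, if_pos ⟨by simp [e], mem_range.1 hi⟩])]
      simp
    · rw [Set.indicator_of_notMem (by exact e)]
      simp [tm, e]
  simp only [h1]
  have mc : ∀ j, MeasurableSet {ω : Om | ω (2 * j) = 0} := fun j => meas_cyl (2 * j) {0}
  rw [lintegral_tsum (fun j => (measurable_const.indicator (mc j)).aemeasurable)]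
  have h2 : ∀ j, ∫⁻ ω, {ω : Om | ω (2 * j) = 0}.indicator
      (fun _ => (2 * MM (2 * j) : ℕ) * ENNReal.ofReal (1 / 4 * (1 / 2) ^ j)) ω ∂PP =
      ENNReal.ofReal (2 * (1 / 4 * (1 / 2) ^ j)) := fun j => by
    rw [lintegral_indicator_const (mc j), pt, ENNReal.ofReal_mul (by norm_num),
      Nat.cast_mul, mul_right_comm, mul_assoc _ (MM (2 * j) : ENNReal),
      ENNReal.mul_inv_cancel (by simpa using NeZero.ne _) (by simp)]
    simp
  simp only [h2]
  rw [← ENNReal.ofReal_tsum_of_nonneg (fun j => by positivity) (geo.mul_left 2).summable,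
    (geo.mul_left 2).tsum_eq]
  simp

theorem cong_cnt (M : ℕ) [NeZero M] (c : ZMod M) (a s : ℤ) (h : -a ≤ s) :
    (M : ℝ) * ((Icc (-a) s).filter (fun z : ℤ => c + z = 0)).card ≤ s + a + M := by
  have p : (0 : ℤ) < M := by exact_mod_cast Nat.pos_of_ne_zero (NeZero.ne M)
  have h1 : ((Icc (-a) s).filter (fun z : ℤ => c + z = 0)).card ≤ (Icc 0 ((s + a) / M)).card := by
    refine card_le_card_of_injOn (fun z => (z + a) / M) (fun z hz => ?_) (fun z hz y hy e => ?_)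
    · have := mem_Icc.1 (mem_filter.1 hz).1
      exact mem_coe.2 (mem_Icc.2 ⟨Int.ediv_nonneg (by omega) p.le,
        Int.ediv_le_ediv p (by omega)⟩)
    · have e1 : ((z + a : ℤ) : ZMod M) = (y + a : ℤ) := by
        push_cast
        linear_combination (mem_filter.1 hz).2 - (mem_filter.1 hy).2
      have e2 : (z + a) % M = (y + a) % M := (ZMod.intCast_eq_intCast_iff _ _ _).1 e1
      have e3 := Int.mul_ediv_add_emod (z + a) M
      have e4 := Int.mul_ediv_add_emod (y + a) M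
      simp only at e
      rw [e, e2] at e3
      omega
  have h2 : ((Icc 0 ((s + a) / M)).card : ℤ) = (s + a) / M + 1 := by
    rw [Int.card_Icc, Int.toNat_of_nonneg]; · ring
    have := Int.ediv_nonneg (by omega : 0 ≤ s + a) p.le
    omega
  have h3 := Int.mul_ediv_self_le (x := s + a) p.ne'
  have h4 : (M : ℤ) * ((Icc (-a) s).filter (fun z : ℤ => c + z = 0)).card ≤ s + a + M := by
    have : (((Icc (-a) s).filter (fun z : ℤ => c + z = 0)).card : ℤ) ≤ (s + a) / M + 1 := by omega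
    nlinarith
  exact_mod_cast h4

theorem drift (ω : Om) (k : ℕ) (n : ℤ) (hg : ∀ j, k < j → ∀ z : ℤ, -n ≤ z → z ≤ n → ω (2 * j) + z ≠ 0)
    (a s : ℤ) (m : ℤ → ℕ) (a0 : 0 ≤ a) (a1 : a ≤ n) (s0 : 0 ≤ s) (s1 : s ≤ n) :
    ∑ z ∈ Icc (-a) s, ∑ i ∈ range (m z), (2 * env ω z i - 1) ≤
      (1 - (1 / 2) ^ (k + 1)) * s + a + MM (2 * k) := by
  have h1 : ∀ z ∈ Icc (-a) s, ∑ i ∈ range (m z), (2 * env ω z i - 1) ≤ ∑ j ∈ range (k + 1),
      if ω (2 * j) + z = 0 then (1 / 2 : ℝ) ^ (j + 1) * MM (2 * j) else 0 := fun z hz => by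
    have hz := mem_Icc.1 hz
    have : ∀ i, 2 * env ω z i - 1 = ∑ j ∈ range (k + 1), tm ω z i j := fun i => by
      rw [← tsum_eq_sum (f := tm ω z i) (L := SummationFilter.unconditional ℕ)
        (fun j hj => if_neg (fun x => hg j (by simpa using hj) z (by omega) (by omega) x.1))]
      unfold env; ring
    simp only [this]
    rw [sum_comm]
    refine sum_le_sum (fun j _ => ?_)
    unfold tm
    split_ifs with e
    · simp only [e, true_and]
      rw [← sum_filter, sum_const, nsmul_eq_mul]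
      have : (((range (m z)).filter (fun i => i < 2 * MM (2 * j))).card : ℝ) ≤ 2 * MM (2 * j) := by
        have := card_le_card (s := (range (m z)).filter (fun i => i < 2 * MM (2 * j)))
          (t := range (2 * MM (2 * j))) (fun i hi => mem_range.2 (mem_filter.1 hi).2)
        rw [card_range] at this
        exact_mod_cast this
      calc _ ≤ 2 * MM (2 * j) * (1 / 4 * (1 / 2 : ℝ) ^ j) := by gcongr
        _ = _ := by ring
    · simp [e]
  refine (sum_le_sum h1).trans ?_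
  rw [sum_comm]
  have h2 : ∀ j ∈ range (k + 1), (∑ z ∈ Icc (-a) s,
      if ω (2 * j) + z = 0 then (1 / 2 : ℝ) ^ (j + 1) * MM (2 * j) else 0) ≤
      (1 / 2 : ℝ) ^ (j + 1) * (s + a + MM (2 * k)) := fun j hj => by
    rw [← sum_filter, sum_const, nsmul_eq_mul]
    have := cong_cnt (MM (2 * j)) (ω (2 * j)) a s (by omega)
    have b : (MM (2 * j) : ℝ) ≤ MM (2 * k) := by
      exact_mod_cast MM_mono (by have := mem_range.1 hj; omega)
    rw [mul_left_comm]
    gcongr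
    linarith
  refine (sum_le_sum h2).trans ?_
  have h3 : ∀ k, ∑ j ∈ range k, (1 / 2 : ℝ) ^ (j + 1) = 1 - (1 / 2) ^ k := fun k => by
    induction k with
    | zero => simp
    | succ k ih => rw [sum_range_succ, ih]; ring
  rw [← sum_mul, h3]
  have : (0 : ℝ) ≤ (1 / 2) ^ (k + 1) * (a + MM (2 * k)) := by positivity
  linarith

def Bad (k : ℕ) : Set Om := ⋃ j, ⋃ z ∈ Icc (-(rr (2 * k) ^ 24 : ℕ) : ℤ) (rr (2 * k) ^ 24 : ℕ),
  {ω | ω (2 * (j + (k + 1))) = -z}

theorem bad_meas (k : ℕ) : MeasurableSet (Bad k) :=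
  MeasurableSet.iUnion fun _ => Finset.measurableSet_biUnion _ fun _ _ => meas_cyl _ {_}

theorem bad_le (k : ℕ) : PP (Bad k) ≤ ENNReal.ofReal ((1 / 2) ^ k) := by
  have h3 : ∀ j, PP (⋃ z ∈ Icc (-(rr (2 * k) ^ 24 : ℕ) : ℤ) (rr (2 * k) ^ 24 : ℕ),
      {ω : Om | ω (2 * (j + (k + 1))) = -z}) ≤ ENNReal.ofReal (1 / 4 * (1 / 2) ^ j * (1 / 2) ^ k) := by
    intro j
    refine (measure_biUnion_finset_le _ _).trans ?_
    simp only [pt, sum_const, nsmul_eq_mul]
    have a1 := rr_ge (2 * (j + (k + 1)))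
    have a2 : rr (2 * k) ^ 4 ≤ rr (2 * (j + (k + 1))) := by
      have : rr (2 * k + 1 + 1) = rr (2 * k) ^ 4 := by rw [rr_succ, rr_succ]; ring
      rw [← this]; exact rr_mono (by omega)
    have a3 : rr (2 * k) ^ 24 ≤ rr (2 * (j + (k + 1))) ^ 6 := by
      rw [show rr (2 * k) ^ 24 = (rr (2 * k) ^ 4) ^ 6 by ring]; exact Nat.pow_le_pow_left a2 6
    have a4 : 1 ≤ rr (2 * k) ^ 24 := Nat.one_le_pow _ _ (by have := rr16 (2 * k); omega)
    have a5 : 2 ^ (j + k) ≤ 2 ^ (2 * (j + (k + 1))) := Nat.pow_le_pow_right (by norm_num) (by omega)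
    have a6 : (Icc (-(rr (2 * k) ^ 24 : ℕ) : ℤ) (rr (2 * k) ^ 24 : ℕ)).card * (4 * 2 ^ (j + k)) ≤
        MM (2 * (j + (k + 1))) := by
      rw [Int.card_Icc, MM_eq]
      calc _ ≤ (3 * rr (2 * (j + (k + 1))) ^ 6) * (4 * 2 ^ (j + k)) :=
            Nat.mul_le_mul_right _ (by omega)
        _ = rr (2 * (j + (k + 1))) ^ 6 * (12 * 2 ^ (j + k)) := by ring
        _ ≤ rr (2 * (j + (k + 1))) ^ 6 * rr (2 * (j + (k + 1))) ^ 2 :=
            Nat.mul_le_mul_left _ (le_trans (by omega) (Nat.le_self_pow (by norm_num) _))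
        _ ≤ _ := by rw [← pow_add]; exact Nat.le_succ _
    have p : (0 : ℝ) < MM (2 * (j + (k + 1))) := by exact_mod_cast Nat.pos_of_ne_zero (NeZero.ne _)
    rw [← div_eq_mul_inv, ← ENNReal.ofReal_natCast, ← ENNReal.ofReal_natCast (MM _),
      ← ENNReal.ofReal_div_of_pos p]
    refine ENNReal.ofReal_le_ofReal ?_
    rw [show (1 / 4 * (1 / 2) ^ j * (1 / 2) ^ k : ℝ) = 1 / (4 * 2 ^ (j + k)) by
      rw [pow_add, one_div_pow, one_div_pow]; field_simp, div_le_div_iff₀ p (by positivity), one_mul]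
    exact_mod_cast a6
  refine (measure_iUnion_le _).trans ((ENNReal.tsum_le_tsum h3).trans ?_)
  rw [← ENNReal.ofReal_tsum_of_nonneg (fun j => by positivity) (geo.mul_right _).summable,
    (geo.mul_right _).tsum_eq]
  refine ENNReal.ofReal_le_ofReal ?_
  have : (0 : ℝ) < (1 / 2) ^ k := by positivity
  linarith

theorem main (ε : ℝ) (hε : 0 < ε) : Tendsto (fun k => ∫⁻ ω, ENNReal.ofReal (ex (env ω) (rr (2 * k) ^ 24)
    (fun l => if ε * √(rr (2 * k) ^ 24 : ℕ) * Real.log (rr (2 * k) ^ 24 : ℕ) < pos l then 1 else 0)) ∂PP)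
    atTop (nhds 0) := by
  have lim : Tendsto (fun k : ℕ => ENNReal.ofReal ((1 + 108 / ε ^ 2) * (1 / 2) ^ k)) atTop
      (nhds (ENNReal.ofReal ((1 + 108 / ε ^ 2) * 0))) := ENNReal.tendsto_ofReal
    ((tendsto_pow_atTop_nhds_zero_of_lt_one (by norm_num) (by norm_num)).const_mul _)
  rw [mul_zero, ENNReal.ofReal_zero] at lim
  refine tendsto_of_tendsto_of_tendsto_of_le_of_le tendsto_const_nhds lim (fun _ => zero_le)
    (fun k => ?_)
  have hw : ∀ ω z i, 1 / 2 ≤ env ω z i ∧ env ω z i ≤ 1 := fun ω z i =>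
    ⟨(env_bd ω z i).1, by linarith [(env_bd ω z i).2]⟩
  have r0 := rr16 (2 * k)
  have n1 : MM (2 * k) ^ 2 ≤ rr (2 * k) ^ 24 := by
    have b0 : 1 ≤ rr (2 * k) ^ 8 := Nat.one_le_pow _ _ (by omega)
    have b1 : 2 ≤ rr (2 * k) ^ 4 := le_trans (by omega) (Nat.le_self_pow (by norm_num) _)
    have : MM (2 * k) ≤ rr (2 * k) ^ 4 * rr (2 * k) ^ 8 := by rw [MM_eq]; nlinarith
    calc _ ≤ (rr (2 * k) ^ 4 * rr (2 * k) ^ 8) ^ 2 := Nat.pow_le_pow_left this 2
      _ = _ := by ring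
  have n2 : (2 : ℝ) ^ k * 2 ^ k ≤ Real.log (rr (2 * k) ^ 24 : ℕ) := by
    have := Real.log_two_gt_d9
    have p : (0 : ℝ) < 2 ^ k * 2 ^ k := by positivity
    unfold rr
    push_cast
    rw [Real.log_pow, Real.log_pow]
    push_cast
    rw [show (2 : ℝ) ^ (2 * k + 2) = 4 * (2 ^ k * 2 ^ k) by ring]
    nlinarith
  have n3 : (0 : ℝ) < (rr (2 * k) ^ 24 : ℕ) := by exact_mod_cast Nat.pow_pos (by omega)
  have p2 : (0 : ℝ) < 2 ^ k := by positivity
  have p3 : (1 : ℝ) ≤ 2 ^ k := one_le_pow₀ (by norm_num)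
  have n4 : 0 < Real.log (rr (2 * k) ^ 24 : ℕ) := lt_of_lt_of_le (by positivity) n2
  refine le_trans (lintegral_mono (g := fun ω => (Bad k).indicator 1 ω +
    ENNReal.ofReal (108 / ε ^ 2 * (1 / 2) ^ k)) (fun ω => ?_)) ?_
  · by_cases hb : ω ∈ Bad k
    · refine le_trans ?_ le_self_add
      rw [Set.indicator_of_mem hb]
      refine ENNReal.ofReal_le_one.2 ((ex_mono (hw ω) _ _ (fun l => 0 * (0 : ℝ) + 1) (fun l _ => by
        split_ifs <;> norm_num)).trans ?_)
      rw [ex_lin]; simp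
    · refine le_trans (ENNReal.ofReal_le_ofReal ?_) le_add_self
      refine (tail (hw ω) _ (η := (1 / 2) ^ (k + 1)) (C := MM (2 * k)) (by positivity)
        (by positivity) (by exact_mod_cast n1) (fun a s m => drift ω k _
          (fun j hj z z1 z2 e => hb ?_) a s m)).trans ?_
      · obtain ⟨i, rfl⟩ : ∃ i, j = i + (k + 1) := ⟨j - (k + 1), by omega⟩
        exact Set.mem_iUnion.2 ⟨i, Set.mem_iUnion₂.2 ⟨z, mem_Icc.2 ⟨z1, z2⟩,
          eq_neg_of_add_eq_zero_left e⟩⟩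
      · generalize ((rr (2 * k) ^ 24 : ℕ) : ℝ) = n at *
        generalize Real.log n = L at *
        have e : ((1 / 2) ^ (k + 1) * (ε * √n * L)) ^ 2 = ε ^ 2 * n * (L / 2 ^ k) ^ 2 / 4 := by
          rw [pow_succ (1 / 2 : ℝ), one_div_pow]
          have := Real.sq_sqrt n3.le
          field_simp
          rw [this]; ring
        have q : 2 ^ k ≤ L / 2 ^ k := by rwa [le_div_iff₀ p2]
        have q2 : 2 ^ k ≤ (L / 2 ^ k) ^ 2 := by nlinarith
        rw [e, one_div_pow, div_le_iff₀ (by positivity)]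
        calc _ = 108 / ε ^ 2 * (1 / 2 ^ k) * (ε ^ 2 * n * 2 ^ k / 4) := by field_simp; norm_num
          _ ≤ _ := by gcongr
  · rw [lintegral_add_right _ measurable_const, lintegral_indicator_one (bad_meas k), lintegral_const,
      measure_univ, mul_one, add_mul, ENNReal.ofReal_add (by positivity) (by positivity), one_mul]
    exact add_le_add (bad_le k) le_rfl

theorem n_top : Tendsto (fun k => rr (2 * k) ^ 24) atTop atTop := tendsto_atTop_mono (fun k => by
    have a := rr_ge (2 * k)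
    have b : 2 * k < 2 ^ (2 * k) := Nat.lt_two_pow_self
    have c : rr (2 * k) ≤ rr (2 * k) ^ 24 := Nat.le_self_pow (by norm_num) _
    show k ≤ _
    omega) tendsto_id

end Pool.Agent.H.MP_3ce60b_pr
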