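import Mathlib

namespace Pool.Agent.H.MP_3ce60b_pr

/-- position after the listed steps (latest first; true is a step to the right) -/
def pos : List Bool → ℤ
  | [] => 0
  | b :: l => pos l + if b then 1 else -1

/-- number of earlier times (before the last one) at which the path was at z -/
def cnt : List Bool → ℤ → ℕ
  | [], _ => 0
  | _ :: l, z => cnt l z + if pos l = z then 1 else 0

/-- expectation of a function f of the first n steps of the excited random walk in the cookie
environment w, where w z i is the probability to step right at visit number i + 1 to z -/
def ex (w : ℤ → ℕ → ℝ) : ℕ → (List Bool → ℝ) → ℝ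
  | 0, f => f []
  | n + 1, f => ex w n (fun l => w (pos l) (cnt l (pos l)) * f (true :: l) +
      (1 - w (pos l) (cnt l (pos l))) * f (false :: l))

end Pool.Agent.H.MP_3ce60b_pr
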